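import Mathlib
import Pool.Agent.MP_cb84d8_pr.Exist

/-!
The critical Glauber dynamics of the Ising model on the square lattice has no exceptional times.
-/

open MeasureTheory Pool.Agent.MP_cb84d8_pr

namespace Pool.Agent.Results.MP_cb84d8_pr.NoExceptionalTimes

/-- The hypothesis of `result` is not empty. -/
theorem gibbs_exists : ∃ μ : Measure Config, IsGibbs betaC μ := exists_gibbs betaC

/-- Let `μ` be a Gibbs measure of the Ising model on `ℤ²` at `β_c`. Take independent rate-one
Poisson clocks `ω.1`, an initial state `ω.2.1` of law `μ` and uniform update variables `ω.2.2`, all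
independent. Almost surely the heat-bath update rule has a solution, and no solution has an
infinite `+` cluster at any time `t ≥ 0`. -/
theorem result (μ : Measure Config) (hμ : IsGibbs betaC μ) :
    ∀ᵐ ω ∂clockLaw.prod (μ.prod unifLaw),
      (∃ σ : ℝ → Config, IsPath betaC ω.2.1 ω.1 ω.2.2 σ) ∧
      ∀ σ : ℝ → Config, IsPath betaC ω.2.1 ω.1 ω.2.2 σ →
        ∀ t : ℝ, 0 ≤ t → ¬ HasInfinitePlusCluster (σ t) :=
  (ae_exists_path hμ).and (no_exceptional_times hμ)

end Pool.Agent.Results.MP_cb84d8_pr.NoExceptionalTimes
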