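import Mathlib
import Pool.Agent.MP_cb84d8_pr.PT.All

/-!
The Glauber dynamics of the Potts model on the square lattice in the ordered state, at and above
the self-dual point, has no exceptional times, and no exceptional short time windows.
-/

open MeasureTheory Pool.Agent.MP_cb84d8_pr Pool.Agent.MP_cb84d8_pr.PT

namespace Pool.Agent.Results.MP_cb84d8_pr.PottsOrdered

/-- The hypothesis on the measure in `result` is not empty. -/
theorem ordered_exists (q : ℕ) [NeZero q] (β : ℝ) : ∃ μ : Measure (Col q), IsOrdered β μ :=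
  rexo q β

/-- The bound on the length of the window in `result` is positive. -/
theorem window_pos (q : ℕ) [NeZero q] (β : ℝ) (hβ : Real.log (1 + √q) ≤ β) :
    0 < (1 - √(1 - Real.exp (-β))) ^ 4 :=
  eps_pos (beta_pos hβ).1

/-- Let `μ` be a limit of `q`-colour Potts measures on `ℤ²` with boundary colour `0`, at an inverse
temperature `β ≥ log (1 + √q)`. Take independent rate-one Poisson clocks `ω.1`, an initial state
`ω.2.1` of law `μ` and uniform update variables `ω.2.2`, all independent. Almost surely the
heat-bath update rule has a solution, and for every solution and every `t ≥ 0` the sites whose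
colour differs from `0` at some time in `[t, t + δ]` have no infinite cluster, even when diagonal
neighbours count as adjacent. -/
theorem result (q : ℕ) [NeZero q] (β δ : ℝ) (hβ : Real.log (1 + √q) ≤ β)
    (hδ : δ < (1 - √(1 - Real.exp (-β))) ^ 4) (μ : Measure (Col q)) (hμ : IsOrdered β μ) :
    ∀ᵐ ω ∂clockLaw.prod (μ.prod unifLaw),
      (∃ σ : ℝ → Col q, PT.IsPath β ω.2.1 ω.1 ω.2.2 σ) ∧
      ∀ σ : ℝ → Col q, PT.IsPath β ω.2.1 ω.1 ω.2.2 σ → ∀ t : ℝ, 0 ≤ t →
        ¬ HasInf {x | ∃ s, t ≤ s ∧ s ≤ t + δ ∧ σ s x ≠ 0} :=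
  potts q β δ μ hβ hδ hμ

end Pool.Agent.Results.MP_cb84d8_pr.PottsOrdered
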